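import Pool.Agent.Q108.OCP.Graph

/-!
# Kernel checks for the graph
-/

set_option autoImplicit false

namespace Q108.OCP

open SimpleGraph

/-- the bits of `m` below `k`, searched from the top, satisfy `f` somewhere -/
def anyB (f : ℕ → Bool) : ℕ → Bool
  | 0 => false
  | k + 1 => f k || anyB f k

theorem anyB_spec (f : ℕ → Bool) (k : ℕ) (h : anyB f k = true) : ∃ i, i < k ∧ f i = true := by
  induction k with
  | zero => exact absurd h (by simp [anyB])
  | succ k ih =>
    simp only [anyB, Bool.or_eq_true] at h
    rcases h with h | h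
    · exact ⟨k, by omega, h⟩
    · obtain ⟨i, hi, h1⟩ := ih h
      exact ⟨i, by omega, h1⟩

/-- nested implication, evaluated lazily -/
def cond (b : Bool) (c : Bool) : Bool := match b with
  | true => c
  | false => false

theorem cond_spec (b c : Bool) (h : cond b c = true) : b = true ∧ c = true := by
  cases b
  · exact absurd h (by simp [cond])
  · exact ⟨rfl, h⟩

/-- there are `p`, `q` such that `u p q v` is an induced path -/
def q3 (A : ℕ → ℕ) (u v : ℕ) : Bool :=
  anyB (fun p => cond ((A u).testBit p) (cond (!((A v).testBit p))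
    (anyB (fun q => cond ((A p).testBit q) (cond ((A v).testBit q) (!((A u).testBit q)))) 29))) 29

theorem q3G : ∀ u v : Fin 29, u ≠ v → (adj u).testBit v = true ∨ q3 adj u v = true := by
  decide +kernel

theorem q3Gc : ∀ u v : Fin 29, u ≠ v → (coadj u).testBit v = true ∨ q3 coadj u v = true := by
  decide +kernel

theorem enumG : enumC adj (fun K => mcL.contains K) 29 0 0 536870911 = true := by decide +kernel

theorem enumGc : enumC coadj (fun K => mccL.contains K) 29 0 0 536870911 = true := by
  decide +kernel

/-- there are `h` outside `K₁` and `K₂` and non-adjacent neighbours `x ∈ K₁`, `y ∈ K₂` of `h` -/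
def pc (A : ℕ → ℕ) (K₁ K₂ : ℕ) : Bool :=
  anyB (fun h => cond (!((K₁ ||| K₂).testBit h))
    (anyB (fun x => cond ((K₁ &&& A h).testBit x)
      (anyB (fun y => cond ((K₂ &&& A h).testBit y) (!((A x).testBit y))) 29)) 29)) 29

def pairs (A : ℕ → ℕ) (L : List ℕ) : Bool :=
  L.all fun K₁ => L.all fun K₂ => (K₁ &&& K₂ != 0) || pc A K₁ K₂

theorem pairsG : pairs adj mcL = true := by decide +kernel

theorem pairsGc : pairs coadj mccL = true := by decide +kernel

end Q108.OCP
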