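import Mathlib

/-!
# Kernel-checkable enumeration of the maximal cliques of a small graph given by bit masks
-/

set_option autoImplicit false

namespace Q108.OCP

/-- `enumC N A test k v R P`: every maximal clique which extends `R` by vertices among
`v, ..., v + k - 1` satisfies `test`; `P` is the mask of the common neighbours of `R`. -/
def enumC (A : ℕ → ℕ) (test : ℕ → Bool) : ℕ → ℕ → ℕ → ℕ → Bool
  | 0, _, R, P => (P != 0) || test R
  | k + 1, v, R, P =>
    (!(P.testBit v) || enumC A test k (v + 1) (R ||| (1 <<< v)) (P &&& A v)) &&
      enumC A test k (v + 1) R P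

theorem one_shl (a w : ℕ) : (1 <<< a).testBit w = decide (a = w) := by
  rw [Nat.one_shiftLeft, Nat.testBit_two_pow]

theorem enumC_sound {N : ℕ} (A : ℕ → ℕ) (test : ℕ → Bool) (κ : ℕ)
    (hlt : ∀ w, κ.testBit w = true → w < N)
    (hirr : ∀ w, (A w).testBit w = false)
    (hcl : ∀ x y, κ.testBit x = true → κ.testBit y = true → x ≠ y → (A x).testBit y = true)
    (hmax : ∀ w, w < N → κ.testBit w = false → ∃ x, κ.testBit x = true ∧ (A x).testBit w = false) :
    ∀ k v R P, v + k = N → (∀ w, R.testBit w = (κ.testBit w && decide (w < v))) →
      (∀ w, P.testBit w = true ↔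
        (w < N ∧ ∀ x, x < v → κ.testBit x = true → (A x).testBit w = true)) →
      enumC A test k v R P = true → test κ = true := by
  intro k
  induction k with
  | zero =>
    intro v R P hv hR hP h
    have hRκ : R = κ := by
      refine Nat.eq_of_testBit_eq fun w => ?_
      rw [hR w]
      by_cases h1 : κ.testBit w = true
      · have := hlt w h1
        simp [h1]
        omega
      · simp [h1]
    have hP0 : P = 0 := by
      refine Nat.eq_of_testBit_eq fun w => ?_
      rw [Nat.zero_testBit, Bool.eq_false_iff]
      intro h1
      obtain ⟨h2, h3⟩ := (hP w).1 h1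
      by_cases h4 : κ.testBit w = true
      · have := h3 w (by omega) h4
        rw [hirr w] at this
        exact absurd this (by decide)
      · obtain ⟨x, hx1, hx2⟩ := hmax w h2 (by simpa using h4)
        have := h3 x (by have := hlt x hx1; omega) hx1
        rw [hx2] at this
        exact absurd this (by decide)
    rw [enumC, hP0] at h
    simpa [hRκ] using h
  | succ k ih =>
    intro v R P hv hR hP h
    rw [enumC, Bool.and_eq_true] at h
    by_cases h1 : κ.testBit v = true
    · have hPv : P.testBit v = true := by
        rw [hP v]
        refine ⟨by omega, fun x hx hx1 => hcl x v hx1 h1 (by omega)⟩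
      have h2 := h.1
      rw [hPv, Bool.not_true, Bool.false_or] at h2
      refine ih (v + 1) _ _ (by omega) ?_ ?_ h2
      · intro w
        rw [Nat.testBit_or, hR w, one_shl]
        by_cases hw : v = w
        · subst hw
          simp [h1]
        · have : decide (w < v + 1) = decide (w < v) := by
            rw [decide_eq_decide]
            omega
          rw [this]
          simp [hw]
      · intro w
        rw [Nat.testBit_land, Bool.and_eq_true, hP w]
        constructor
        · rintro ⟨⟨a1, a2⟩, a3⟩
          refine ⟨a1, fun x hx hx1 => ?_⟩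
          rcases Nat.lt_succ_iff_lt_or_eq.1 hx with h5 | h5
          · exact a2 x h5 hx1
          · rw [h5]; exact a3
        · rintro ⟨a1, a2⟩
          exact ⟨⟨a1, fun x hx hx1 => a2 x (by omega) hx1⟩, a2 v (by omega) h1⟩
    · have h1' : κ.testBit v = false := by simpa using h1
      refine ih (v + 1) _ _ (by omega) ?_ ?_ h.2
      · intro w
        rw [hR w]
        by_cases hw : w = v
        · subst hw
          simp [h1']
        · have : decide (w < v + 1) = decide (w < v) := by
            rw [decide_eq_decide]
            omega
          rw [this]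
      · intro w
        rw [hP w]
        constructor
        · rintro ⟨a1, a2⟩
          refine ⟨a1, fun x hx hx1 => ?_⟩
          rcases Nat.lt_succ_iff_lt_or_eq.1 hx with h5 | h5
          · exact a2 x h5 hx1
          · rw [h5] at hx1; exact absurd hx1 h1
        · rintro ⟨a1, a2⟩
          exact ⟨a1, fun x hx hx1 => a2 x (by omega) hx1⟩

/-- there are `h` outside `K₁` and `K₂` and non-adjacent neighbours `x ∈ K₁`, `y ∈ K₂` of `h` -/
def pathCheck (N : ℕ) (A : ℕ → ℕ) (K₁ K₂ : ℕ) : Bool :=
  (List.range N).any fun h => !(K₁.testBit h) && !(K₂.testBit h) &&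
    (List.range N).any fun x => (K₁ &&& A h).testBit x &&
      (List.range N).any fun y => (K₂ &&& A h).testBit y && !((A x).testBit y)

def pairsCheck (N : ℕ) (A : ℕ → ℕ) (L : List ℕ) : Bool :=
  L.all fun K₁ => L.all fun K₂ => (K₁ &&& K₂ != 0) || pathCheck N A K₁ K₂

end Q108.OCP
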