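import Mathlib

/-!
# Holes and homogeneous sets: an induced cycle with at least five vertices in a graph obtained by
substituting graphs for the vertices of a graph lies in one of the graphs
-/

set_option autoImplicit false

namespace Q108.OCP

open SimpleGraph

/-- adjacency in the cycle `0, 1, ..., n - 1` -/
def cadj (n i j : ℕ) : Prop :=
  (i + 1 = j ∨ j + 1 = i) ∨ (i = 0 ∧ j + 1 = n) ∨ (j = 0 ∧ i + 1 = n)

theorem cyc_adj' {n : ℕ} (hn : 3 ≤ n) (i j : ℕ) (hi : i < n) (hj : j < n) :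
    (cycleGraph n).Adj ⟨i, hi⟩ ⟨j, hj⟩ ↔ cadj n i j := by
  rw [cycleGraph_adj']
  have key : ∀ a b : ℕ, ∀ ha : a < n, ∀ hb : b < n,
      ((⟨a, ha⟩ : Fin n) - ⟨b, hb⟩).val = 1 ↔ (b + 1 = a ∨ (a = 0 ∧ b + 1 = n)) := by
    intro a b ha hb
    rw [Fin.sub_def]
    change (n - b + a) % n = 1 ↔ _
    rcases Nat.lt_or_ge a b with hab | hab
    · rw [Nat.mod_eq_of_lt (by omega)]
      omega
    · have : n - b + a = (a - b) + n := by omega
      rw [this, Nat.add_mod_right, Nat.mod_eq_of_lt (by omega)]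
      omega
  rw [key i j hi hj, key j i hj hi]
  unfold cadj
  omega

/-- cycles with at least five vertices have only trivial homogeneous sets -/
theorem cyc_prime {n : ℕ} (hn : 5 ≤ n) (P : ℕ → Prop)
    (hmod : ∀ w x y, w < n → x < n → y < n → ¬ P w → P x → P y → cadj n w x → cadj n w y)
    (x0 y0 : ℕ) (hx0 : x0 < n) (hy0 : y0 < n) (hxy : x0 ≠ y0) (hPx : P x0) (hPy : P y0) :
    ∀ w, w < n → P w := by
  classical
  by_contra hcon
  push Not at hcon
  obtain ⟨w0, hw0, hw1⟩ := hcon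
  have step : ∃ i, i + 1 < n ∧ ¬ (P i ↔ P (i + 1)) := by
    by_contra h
    push Not at h
    have hall : ∀ i, i < n → (P i ↔ P 0) := by
      intro i
      induction i with
      | zero => intro _; rfl
      | succ i ih =>
        intro hi
        rw [← h i hi]
        exact ih (by omega)
    exact hw1 ((hall w0 hw0).2 ((hall x0 hx0).1 hPx))
  obtain ⟨i, hi, hne⟩ := step
  by_cases hPi : P i
  · have hPi1 : ¬ P (i + 1) := fun h => hne ⟨fun _ => h, fun _ => hPi⟩
    obtain ⟨y, hy, hyP, hyi⟩ : ∃ y, y < n ∧ P y ∧ y ≠ i := by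
      by_cases h : x0 = i
      · exact ⟨y0, hy0, hPy, by omega⟩
      · exact ⟨x0, hx0, hPx, h⟩
    have h1 := hmod (i + 1) i y hi (by omega) hy hPi1 hPi hyP (by unfold cadj; omega)
    obtain ⟨w', hw', hc⟩ : ∃ w', w' < n ∧ ((i = 0 ∧ w' + 1 = n) ∨ w' + 1 = i) := by
      rcases Nat.eq_zero_or_pos i with h | h
      · exact ⟨n - 1, by omega, by omega⟩
      · exact ⟨i - 1, by omega, by omega⟩
    have hPw' : ¬ P w' := by
      intro h
      have := hmod (i + 1) i w' hi (by omega) hw' hPi1 hPi h (by unfold cadj; omega)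
      unfold cadj at this
      omega
    have h2 := hmod w' i y hw' (by omega) hy hPw' hPi hyP (by unfold cadj; omega)
    unfold cadj at h1 h2
    omega
  · have hPi1 : P (i + 1) := by
      by_contra h
      exact hne ⟨fun h' => absurd h' hPi, fun h' => absurd h' h⟩
    obtain ⟨y, hy, hyP, hyi⟩ : ∃ y, y < n ∧ P y ∧ y ≠ i + 1 := by
      by_cases h : x0 = i + 1
      · exact ⟨y0, hy0, hPy, by omega⟩
      · exact ⟨x0, hx0, hPx, h⟩
    have h1 := hmod i (i + 1) y (by omega) hi hy hPi hPi1 hyP (by unfold cadj; omega)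
    obtain ⟨w', hw', hc⟩ : ∃ w', w' < n ∧ ((i + 2 = n ∧ w' = 0) ∨ w' = i + 2) := by
      rcases Nat.lt_or_ge (i + 2) n with h | h
      · exact ⟨i + 2, by omega, by omega⟩
      · exact ⟨0, by omega, by omega⟩
    have hPw' : ¬ P w' := by
      intro h
      have := hmod i (i + 1) w' (by omega) hi hw' hPi hPi1 h (by unfold cadj; omega)
      unfold cadj at this
      omega
    have h2 := hmod w' (i + 1) y hw' hi hy hPw' hPi1 hyP (by unfold cadj; omega)
    unfold cadj at h1 h2
    omega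

/-- `G'` is obtained by substituting induced subgraphs of `K` for the vertices of `K`: a vertex `u`
of `G'` is given by the vertex `π u` it belongs to and its position `loc u` there. -/
theorem sub_hole {V W : Type} (G' : SimpleGraph V) (K : SimpleGraph W) (π loc : V → W)
    (hinj : ∀ u v, π u = π v → loc u = loc v → u = v)
    (h1 : ∀ u v, π u = π v → (G'.Adj u v ↔ K.Adj (loc u) (loc v)))
    (h2 : ∀ u v, π u ≠ π v → (G'.Adj u v ↔ K.Adj (π u) (π v)))
    (n : ℕ) (hn : 5 ≤ n) (g : cycleGraph n ↪g G') : Nonempty (cycleGraph n ↪g K) := by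
  classical
  by_cases hi : Function.Injective (fun i => π (g i))
  · refine ⟨⟨⟨fun i => π (g i), hi⟩, ?_⟩⟩
    intro i j
    change K.Adj (π (g i)) (π (g j)) ↔ _
    by_cases hij : i = j
    · subst hij
      simp
    · rw [← h2 (g i) (g j) (fun h => hij (hi h)), g.map_adj_iff]
  · rw [Function.Injective] at hi
    push Not at hi
    obtain ⟨i0, j0, hb, hne⟩ := hi
    have hadj : ∀ a b : ℕ, ∀ ha : a < n, ∀ hb : b < n,
        (G'.Adj (g ⟨a, ha⟩) (g ⟨b, hb⟩) ↔ cadj n a b) := by
      intro a b ha hb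
      rw [g.map_adj_iff, cyc_adj' (by omega)]
    have hall : ∀ w, w < n → ∃ h : w < n, π (g ⟨w, h⟩) = π (g i0) := by
      refine cyc_prime hn (fun w => ∃ h : w < n, π (g ⟨w, h⟩) = π (g i0)) ?_ i0.val j0.val i0.isLt
        j0.isLt (fun h => hne (Fin.ext h)) ⟨i0.isLt, rfl⟩ ⟨j0.isLt, hb.symm⟩
      rintro w x y hw hx hy hPw ⟨_, hPx⟩ ⟨_, hPy⟩ hwx
      have hPw' : π (g ⟨w, hw⟩) ≠ π (g i0) := fun h => hPw ⟨hw, h⟩
      rw [← hadj w x hw hx, h2 _ _ (by rw [hPx]; exact hPw'), hPx] at hwx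
      rw [← hadj w y hw hy, h2 _ _ (by rw [hPy]; exact hPw'), hPy]
      exact hwx
    have hall' : ∀ i j : Fin n, π (g i) = π (g j) := by
      intro i j
      obtain ⟨_, a⟩ := hall i.val i.isLt
      obtain ⟨_, b⟩ := hall j.val j.isLt
      exact a.trans b.symm
    refine ⟨⟨⟨fun i => loc (g i), ?_⟩, ?_⟩⟩
    · intro i j h
      exact g.injective (hinj _ _ (hall' i j) h)
    · intro i j
      change K.Adj (loc (g i)) (loc (g j)) ↔ _
      rw [← h1 _ _ (hall' i j), g.map_adj_iff]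

end Q108.OCP
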