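import Pool.Agent.Q108.OCP.Cliques
import Pool.Agent.Q108.OCP.Prime
import Pool.Agent.H171R2.HoleSearch

/-!
# The graph: three vertices of the 3 x 3 rook's graph minus a vertex replaced by copies of that graph
-/

set_option autoImplicit false

namespace Q108.OCP

open SimpleGraph Pool.Agent.H171R2.Hole

/-- adjacency table of the graph: bit `29 * u + v` -/
def tab : ℕ := 4584007581037274884032009744925138051135822084021919072508343788914126927284027173387590822011977461183016162599521700042274829712515999576818306104902564938867090999289606016539763960467752615703430403883611624278755613710698910645112084338302057971534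

/-- adjacency table of the complement -/
def cotab : ℕ := 2747551815264268398671114053451762043371647166634468710129225071523467209180710995474791906281715923155281751498576764779509663979518708773014889096075456255165091103651620866496509287363777826593216517065114594712669034266753275860433363676124822896816

/-- adjacency tables of the 3 x 3 rook's graph minus a vertex and of its complement -/
def tab8 : ℕ := 5947316301287626062

def cotab8 : ℕ := 3258006083831621808

def adj (v : ℕ) : ℕ := (tab >>> (29 * v)) &&& 536870911

def coadj (v : ℕ) : ℕ := (cotab >>> (29 * v)) &&& 536870911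

def adj8 (v : ℕ) : ℕ := (tab8 >>> (8 * v)) &&& 255

def coadj8 (v : ℕ) : ℕ := (cotab8 >>> (8 * v)) &&& 255

/-- the maximal cliques -/
def mcL : List ℕ :=
  [134676487, 139001863, 143785991, 136577031, 137887751, 146800647, 16779015, 16795911,
   16814599, 16791559, 16786439, 16826375, 134676553, 139001929, 143786057, 136577097, 137887817,
   146800713, 16779081, 16795977, 16814665, 16791625, 16786505, 16826441, 134676626, 139002002,
   143786130, 136577170, 137887890, 146800786, 16779154, 16796050, 16814738, 16791698, 16786578,
   16826514, 134676536, 139001912, 143786040, 136577080, 137887800, 146800696, 16779064,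
   16795960, 16814648, 16791608, 16786488, 16826424, 134676516, 139001892, 143786020, 136577060,
   137887780, 146800676, 16779044, 16795940, 16814628, 16791588, 16786468, 16826404, 134676672,
   139002048, 143786176, 136577216, 137887936, 146800832, 16779200, 16796096, 16814784, 16791744,
   16786624, 16826560, 301991680, 302008576, 302027264, 301999104, 302004224, 302039040,
   101122048, 105447424, 110231552, 104333312, 103022592, 113246208, 83886080, 402653184]

/-- the maximal cliques of the complement -/
def mccL : List ℕ :=
  [1118464, 1155328, 1116672, 1139200, 1149952, 1135616, 286326784, 10555648, 10592512, 10553856,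
   10576384, 10587136, 10572800, 295763968, 659712, 696576, 657920, 680448, 691200, 676864,
   285868032, 6426880, 6463744, 6425088, 6447616, 6458368, 6444032, 291635200, 9179392, 9216256,
   9177600, 9200128, 9210880, 9196544, 294387712, 5509376, 5546240, 5507584, 5530112, 5540864,
   5526528, 290717696, 184549376, 33554449, 33554593, 33554442, 33554530, 33554572, 33554516,
   335544337, 335544481, 335544330, 335544418, 335544460, 335544404, 201330944, 201367808,
   201329152, 201351680, 201362432, 201348096]

/-- The 3 x 3 rook's graph minus a vertex. -/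
def H8 : SimpleGraph (Fin 8) where
  Adj u v := (adj8 u).testBit v = true
  symm := by
    have h : ∀ u v : Fin 8, (adj8 u).testBit v = true → (adj8 v).testBit u = true := by
      decide +kernel
    exact ⟨fun u v => h u v⟩
  loopless := by
    have h : ∀ u : Fin 8, ¬ (adj8 u).testBit u = true := by decide +kernel
    exact ⟨h⟩

theorem H8c_adj (u v : Fin 8) : H8ᶜ.Adj u v ↔ (coadj8 u).testBit v = true := by
  have h : ∀ u v : Fin 8, (u ≠ v ∧ ¬ (adj8 u).testBit v = true) ↔ (coadj8 u).testBit v = true := by
    decide +kernel
  rw [compl_adj]
  exact h u v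

/-- The graph. -/
def G : SimpleGraph (Fin 29) where
  Adj u v := (adj u).testBit v = true
  symm := by
    have h : ∀ u v : Fin 29, (adj u).testBit v = true → (adj v).testBit u = true := by
      decide +kernel
    exact ⟨fun u v => h u v⟩
  loopless := by
    have h : ∀ u : Fin 29, ¬ (adj u).testBit u = true := by decide +kernel
    exact ⟨h⟩

theorem G_adj (u v : Fin 29) : G.Adj u v ↔ (adj u).testBit v = true := Iff.rfl

theorem Gc_adj (u v : Fin 29) : Gᶜ.Adj u v ↔ (coadj u).testBit v = true := by
  have h : ∀ u v : Fin 29, (u ≠ v ∧ ¬ (adj u).testBit v = true) ↔ (coadj u).testBit v = true := by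
    decide +kernel
  rw [compl_adj, G_adj]
  exact h u v

/-- the vertex of the rook's graph minus a vertex to which `v` belongs -/
def piN (v : ℕ) : ℕ := (151580543238419251921420288 >>> (3 * v)) &&& 7

/-- the position of `v` in the copy substituted there -/
def locN (v : ℕ) : ℕ := if v < 24 then v % 8 else 0

def pi (v : Fin 29) : Fin 8 := ⟨piN v % 8, Nat.mod_lt _ (by norm_num)⟩

def loc (v : Fin 29) : Fin 8 := ⟨locN v % 8, Nat.mod_lt _ (by norm_num)⟩

theorem pi_loc : ∀ u v : Fin 29, pi u = pi v → loc u = loc v → u = v := by decide +kernel

theorem G_in : ∀ u v : Fin 29, pi u = pi v →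
    ((adj u).testBit v = true ↔ (adj8 (loc u)).testBit (loc v) = true) := by decide +kernel

theorem G_out : ∀ u v : Fin 29, pi u ≠ pi v →
    ((adj u).testBit v = true ↔ (adj8 (pi u)).testBit (pi v) = true) := by decide +kernel

theorem Gc_in : ∀ u v : Fin 29, pi u = pi v →
    ((coadj u).testBit v = true ↔ (coadj8 (loc u)).testBit (loc v) = true) := by decide +kernel

theorem Gc_out : ∀ u v : Fin 29, pi u ≠ pi v →
    ((coadj u).testBit v = true ↔ (coadj8 (pi u)).testBit (pi v) = true) := by decide +kernel

theorem hole8 : holeCheck 8 adj8 (fun d => d % 2 == 0) = true := by decide +kernel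

theorem hole8c : holeCheck 8 coadj8 (fun d => d % 2 == 0) = true := by decide +kernel

/-- no odd holes -/
theorem no_hole (n : ℕ) (hn : 5 ≤ n) (hodd : Odd n) : ¬ Nonempty (cycleGraph n ↪g G) := by
  rintro ⟨g⟩
  refine no_odd_hole adj8 H8 (fun u v => Iff.rfl) hole8 n (by omega) hodd ?_
  exact sub_hole G H8 pi loc pi_loc (fun u v h => G_in u v h) (fun u v h => G_out u v h) n hn g

/-- no odd holes in the complement -/
theorem no_cohole (n : ℕ) (hn : 5 ≤ n) (hodd : Odd n) : ¬ Nonempty (cycleGraph n ↪g Gᶜ) := by
  rintro ⟨g⟩
  refine no_odd_hole coadj8 H8ᶜ H8c_adj hole8c n (by omega) hodd ?_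
  refine sub_hole Gᶜ H8ᶜ pi loc pi_loc (fun u v h => ?_) (fun u v h => ?_) n hn g
  · rw [Gc_adj, H8c_adj]; exact Gc_in u v h
  · rw [Gc_adj, H8c_adj]; exact Gc_out u v h

theorem irrG : ∀ w, (adj w).testBit w = false := by
  intro w
  by_cases h : w < 29
  · have h1 : ∀ u : Fin 29, (adj u).testBit u = false := by decide +kernel
    exact h1 ⟨w, h⟩
  · unfold adj
    rw [Nat.testBit_land, show (536870911 : ℕ) = 2 ^ 29 - 1 by norm_num, Nat.testBit_two_pow_sub_one]
    simp [h]

theorem irrGc : ∀ w, (coadj w).testBit w = false := by
  intro w
  by_cases h : w < 29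
  · have h1 : ∀ u : Fin 29, (coadj u).testBit u = false := by decide +kernel
    exact h1 ⟨w, h⟩
  · unfold coadj
    rw [Nat.testBit_land, show (536870911 : ℕ) = 2 ^ 29 - 1 by norm_num, Nat.testBit_two_pow_sub_one]
    simp [h]

end Q108.OCP
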